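import Pool.Agent.Zk48.UL.Main

set_option autoImplicit false

namespace Pool.Agent.Results.MP_e299c6_nt.AllLevelSetsClosed

/-- For every `q ∈ (1, 2]` the level set `{x > 0 | q_s(x) = q}` of the smallest univoque base
`q_s(x) = inf U(x)` is closed in `(0, ∞)`; here `U(x)` is the set of the bases `p ∈ (1, 2]` in which
`x` has exactly one expansion with digits `0`, `1`. -/
theorem result (q : ℝ) (h1 : 1 < q) (_h2 : q ≤ 2) :
    IsClosed {x : Set.Ioi (0 : ℝ) |
      sInf {p : ℝ | 1 < p ∧ p ≤ 2 ∧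
        ∃! d : ℕ → Bool, ∑' i : ℕ, (if d i then (1 : ℝ) else 0) / p ^ (i + 1) = (x : ℝ)} = q} :=
  Pool.Agent.Zk48.UL.closed_all h1

end Pool.Agent.Results.MP_e299c6_nt.AllLevelSetsClosed
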